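import Pool.Agent.Lib_helper84.HSGF.GB2

/-!
# Lattices with a level structure, over an arbitrary number field

A point `x : Pt n` is a lattice `L` of `K²` together with a coset `V = v + n L` of a vector
`v ∈ L` which is not contained in `p L` for any prime ideal `p` dividing the level `n`. Adelically
these are the cosets of the open compact group `K₁(n)` in `GL₂` of the finite adeles.
-/

namespace Pool.Agent.HSG.LV

open NumberField IsDedekindDomain
open scoped nonZeroDivisors MatrixGroups Pointwise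

variable {K : Type} [Field K] [NumberField K]

/-- a prime ideal as an element of the group of fractional ideals -/
noncomputable abbrev pI (p : Pr K) : Id K := HS.frP p

/-- the prime ideal `p` divides `n` -/
def Dv (p : Pr K) (n : Id K) : Prop := IsInt (n / pI p)

/-- `c` is an integral ideal which is prime to `n` -/
def Cp (n c : Id K) : Prop := IsInt c ∧ ∀ p : Pr K, Dv p c → ¬ Dv p n

/-- `v` is an element of `L` which is not contained in `p L` for the primes `p` dividing `n` -/
def Prim (n : Id K) (L : Lat K) (v : Fin 2 → K) : Prop :=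
  v ∈ L.M ∧ ∀ p : Pr K, Dv p n → v ∉ (L.sm (pI p)).M

/-- the coset `v + n L` -/
def cst (n : Id K) (L : Lat K) (v : Fin 2 → K) : Set (Fin 2 → K) := {u | u - v ∈ (L.sm n).M}

/-- lattices with a level structure -/
@[ext] structure Pt (n : Id K) where
  L : Lat K
  V : Set (Fin 2 → K)
  ex : ∃ v, Prim n L v ∧ V = cst n L v

/-- the point `(L, v + n L)` -/
def Pt.of {n : Id K} (L : Lat K) (v : Fin 2 → K) (h : Prim n L v) : Pt n :=
  ⟨L, cst n L v, v, h, rfl⟩

/-! ### The action of matrices -/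

omit [NumberField K] in
theorem mem_mul (L : Lat K) (g : GL (Fin 2) K) (v : Fin 2 → K) :
    v ∈ (L.mul g).M ↔ Matrix.vecMul v ((g⁻¹ : GL (Fin 2) K) : Matrix (Fin 2) (Fin 2) K) ∈ L.M := by
  constructor
  · rintro ⟨u, hu, rfl⟩
    simpa [Matrix.vecMul_vecMul] using hu
  · intro h
    exact ⟨_, h, by simp [Matrix.vecMul_vecMul]⟩

omit [NumberField K] in
theorem vm_mem (L : Lat K) (g : GL (Fin 2) K) (v : Fin 2 → K) :
    Matrix.vecMul v (g : Matrix (Fin 2) (Fin 2) K) ∈ (L.mul g).M ↔ v ∈ L.M := by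
  rw [mem_mul, Matrix.vecMul_vecMul, ← Units.val_mul, mul_inv_cancel]
  simp

theorem prim_mul {n : Id K} {L : Lat K} {v : Fin 2 → K} (h : Prim n L v) (g : GL (Fin 2) K) :
    Prim n (L.mul g) (Matrix.vecMul v (g : Matrix (Fin 2) (Fin 2) K)) := by
  refine ⟨(vm_mem L g v).2 h.1, fun p hp hv => h.2 p hp ?_⟩
  rw [← mul_sm] at hv
  exact (vm_mem _ g v).1 hv

theorem cst_mul (n : Id K) (L : Lat K) (v : Fin 2 → K) (g : GL (Fin 2) K) :
    (fun u => Matrix.vecMul u (g : Matrix (Fin 2) (Fin 2) K)) '' cst n L v =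
      cst n (L.mul g) (Matrix.vecMul v (g : Matrix (Fin 2) (Fin 2) K)) := by
  ext u
  constructor
  · rintro ⟨u, hu, rfl⟩
    show _ - _ ∈ ((L.mul g).sm n).M
    rw [← mul_sm, ← Matrix.sub_vecMul]
    exact (vm_mem _ g _).2 hu
  · intro hu
    have hu' : u - Matrix.vecMul v (g : Matrix (Fin 2) (Fin 2) K) ∈ ((L.mul g).sm n).M := hu
    rw [← mul_sm, mem_mul, Matrix.sub_vecMul, Matrix.vecMul_vecMul, ← Units.val_mul,
      mul_inv_cancel] at hu'
    refine ⟨Matrix.vecMul u ((g⁻¹ : GL (Fin 2) K) : Matrix (Fin 2) (Fin 2) K), ?_, ?_⟩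
    · show _ - v ∈ (L.sm n).M
      simpa using hu'
    · simp [Matrix.vecMul_vecMul]

/-- the point `x g` (row vectors times a matrix) -/
noncomputable def Pt.mul {n : Id K} (x : Pt n) (g : GL (Fin 2) K) : Pt n where
  L := x.L.mul g
  V := (fun u => Matrix.vecMul u (g : Matrix (Fin 2) (Fin 2) K)) '' x.V
  ex := by
    obtain ⟨v, hv, hV⟩ := x.ex
    exact ⟨_, prim_mul hv g, by rw [hV, cst_mul]⟩

theorem pt_mul_mul {n : Id K} (x : Pt n) (g h : GL (Fin 2) K) :
    x.mul (g * h) = (x.mul g).mul h := by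
  ext1
  · exact mul_mul x.L g h
  · show _ '' x.V = _ '' (_ '' x.V)
    rw [Set.image_image]
    simp [Matrix.vecMul_vecMul]

theorem pt_mul_one {n : Id K} (x : Pt n) : x.mul 1 = x := by
  ext1
  · show x.L.mul 1 = x.L
    have := one_smul (GL (Fin 2) K) x.L
    rw [show (1 : GL (Fin 2) K) • x.L = x.L.mul 1⁻¹ from rfl, inv_one] at this
    exact this
  · show _ '' x.V = _
    simp

noncomputable instance instActP {n : Id K} : MulAction (GL (Fin 2) K) (Pt n) where
  smul g x := x.mul g⁻¹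
  one_smul x := by
    show x.mul 1⁻¹ = x
    rw [inv_one, pt_mul_one]
  mul_smul g h x := by
    show x.mul (g * h)⁻¹ = (x.mul h⁻¹).mul g⁻¹
    rw [mul_inv_rev, pt_mul_mul]

noncomputable instance instActSP {n : Id K} : MulAction SL(2, K) (Pt n) :=
  MulAction.compHom _ (Matrix.SpecialLinearGroup.toGL (n := Fin 2) (R := K))

instance {n : Id K} : MeasurableSpace (Pt n) := ⊤

instance {n : Id K} : DiscreteMeasurableSpace (Pt n) := ⟨fun _ => trivial⟩

theorem countP (n : Id K) : Countable (Pt n) := by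
  have := countK K
  have : Countable (Lat K) := countL K
  have h : Function.Injective (fun x : Pt n => (x.L, x.ex.choose)) := by
    intro x y hxy
    have h1 : x.L = y.L := congrArg Prod.fst hxy
    have h2 : x.ex.choose = y.ex.choose := congrArg Prod.snd hxy
    have h3 : x.V = y.V := by
      have h4 := x.ex.choose_spec.2
      have h5 := y.ex.choose_spec.2
      rw [h2] at h4
      exact h4.trans ((congrArg (fun L => cst n L y.ex.choose) h1).trans h5.symm)
    exact Pt.ext h1 h3
  exact h.countable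

instance instCP {n : Id K} : Countable (Pt n) := countP n

/-! ### Multiplication by ideals prime to the level, Hecke correspondences -/

/-- `y = c x`, for an integral ideal `c` prime to `n`: the point `(c L, V ∩ c L)` -/
def Sc {n : Id K} (c : Id K) (x y : Pt n) : Prop :=
  Cp n c ∧ y.L = x.L.sm c ∧ y.V = x.V ∩ (y.L.M : Set (Fin 2 → K))

/-- the Hecke correspondence: `x = (L, v)`, `y = (L', v)` with `L ⊂ L'`, `L'/L ≅ O/p` -/
def Nb {n : Id K} (p : Pr K) (x y : Pt n) : Prop := y.L.Sub p x.L ∧ x.V ⊆ y.V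

/-- the Hecke operator `T_p` (also for the primes dividing the level) -/
noncomputable def Tp {n : Id K} {M : Type*} [AddCommMonoid M] (p : Pr K) (f : Pt n → M)
    (x : Pt n) : M :=
  ∑ᶠ y : {y : Pt n // Nb p x y}, f y.1

/-- the adjoint `T_p*` of the Hecke operator -/
noncomputable def Ts {n : Id K} {M : Type*} [AddCommMonoid M] (p : Pr K) (f : Pt n → M)
    (y : Pt n) : M :=
  ∑ᶠ x : {x : Pt n // Nb p x y}, f x.1

/-! ### Standard points -/

theorem frP_not_one (p : Pr K) : (1 : K) ∉ (pI p).m := by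
  intro h
  have h1 : (1 : K) ∈ ((p.asIdeal : FractionalIdeal (𝓞 K)⁰ K) : Submodule (𝓞 K) K) := h
  rw [FractionalIdeal.coe_coeIdeal, IsLocalization.mem_coeSubmodule] at h1
  obtain ⟨y, hy, hy1⟩ := h1
  have h2 : y = 1 := by
    apply FaithfulSMul.algebraMap_injective (𝓞 K) K
    rw [hy1, map_one]
  rw [h2] at hy
  exact p.isPrime.ne_top ((Ideal.eq_top_iff_one _).2 hy)

/-- an ideal prime to `n` and its inverse: `1 ∉ p c⁻¹` for `p` dividing `n` -/
theorem cp_inv {n c : Id K} (hc : Cp n c) :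
    (1 : K) ∈ (c⁻¹).m ∧ ∀ p : Pr K, Dv p n → (1 : K) ∉ (pI p * c⁻¹).m := by
  have h1 : (1 : K) ∈ (1 : Id K).m := by
    show (1 : K) ∈ (((1 : Id K) : FractionalIdeal (𝓞 K)⁰ K) : Submodule (𝓞 K) K)
    rw [Units.val_one, FractionalIdeal.coe_one]
    exact Submodule.one_le.mp le_rfl
  constructor
  · have := (isInt_div 1 c⁻¹).1 (by simpa using hc.1)
    exact this h1
  · intro p hp h
    apply hc.2 p ?_ hp
    have h2 : (1 : Id K).m ≤ (pI p * c⁻¹).m := by
      intro x hx
      obtain ⟨y, rfl⟩ := (mem_m_one x).1 hx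
      have := (pI p * c⁻¹).m.smul_mem y h
      rwa [Algebra.smul_def, mul_one] at this
    have h3 := (isInt_div 1 (pI p * c⁻¹)).2 h2
    have h4 : (1 : Id K) / (pI p * c⁻¹) = c / pI p := by
      rw [one_div, mul_inv, inv_inv, div_eq_mul_inv, mul_comm]
    rwa [h4] at h3

theorem mem_ds (b a : Id K) (v : Fin 2 → K) : v ∈ (Lat.ds b a).M ↔ v 0 ∈ b.m ∧ v 1 ∈ a.m :=
  Iff.rfl

theorem prim_S {n c : Id K} (b : Id K) (hc : Cp n c) : Prim n (Lat.ds b c⁻¹) ![0, 1] := by
  refine ⟨⟨b.m.zero_mem, (cp_inv hc).1⟩, fun p hp h => (cp_inv hc).2 p hp ?_⟩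
  rw [ds_sm] at h
  exact h.2

theorem prim_Z {n c : Id K} (b : Id K) (hc : Cp n c) : Prim n (Lat.ds c⁻¹ b) ![1, 0] := by
  refine ⟨⟨(cp_inv hc).1, b.m.zero_mem⟩, fun p hp h => (cp_inv hc).2 p hp ?_⟩
  rw [ds_sm] at h
  exact h.1

/-- the point `(b ⊕ c⁻¹, (0, 1))`, `c` an integral ideal prime to `n` -/
noncomputable def ptS {n : Id K} (b : Id K) {c : Id K} (hc : Cp n c) : Pt n :=
  Pt.of (Lat.ds b c⁻¹) ![0, 1] (prim_S b hc)

/-- the point `(c⁻¹ ⊕ b, (1, 0))`, `c` an integral ideal prime to `n` -/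
noncomputable def ptZ {n : Id K} (b : Id K) {c : Id K} (hc : Cp n c) : Pt n :=
  Pt.of (Lat.ds c⁻¹ b) ![1, 0] (prim_Z b hc)

theorem cp_one (n : Id K) : Cp n 1 := by
  refine ⟨le_rfl, fun p hp => ?_⟩
  exfalso
  have h1 := (isInt_div 1 (pI p)).1 hp
  exact frP_not_one p (h1 ((mem_m_one 1).2 ⟨1, by simp⟩))

/-- the point `(b ⊕ O, (0, 1))` -/
noncomputable def sS (n b : Id K) : Pt n := ptS b (cp_one n)

/-- the point `(O ⊕ b, (1, 0))` -/
noncomputable def sZ (n b : Id K) : Pt n := ptZ b (cp_one n)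

/-! ### Change of the level -/

/-- the point `(L, V + n L)` of level `n` of a point of level `m`, `n | m` -/
def Res {n m : Id K} (x : Pt m) (y : Pt n) : Prop := y.L = x.L ∧ x.V ⊆ y.V

/-! ### Duality -/

/-- the dual lattice `(n d det L)⁻¹ L` of `n L` -/
noncomputable def dua (n : Id K) (L : Lat K) : Lat K := L.sm (n * DD K * L.det)⁻¹

/-! ### Automorphisms of the field -/

/-- the automorphism of the ring of integers -/
noncomputable def oA (τ : K ≃+* K) : 𝓞 K ≃+* 𝓞 K := RingOfIntegers.mapRingEquiv τ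

/-- the image of a fractional ideal under an automorphism of the field -/
noncomputable def gI (τ : K ≃+* K) (a : Id K) : Id K :=
  toId { carrier := {x | τ.symm x ∈ a.m}
         add_mem' := fun {x y} hx hy => by
           show τ.symm (x + y) ∈ a.m
           rw [map_add]; exact a.m.add_mem hx hy
         zero_mem' := by
           show τ.symm 0 ∈ a.m
           rw [map_zero]; exact a.m.zero_mem
         smul_mem' := fun c x hx => by
           show τ.symm (c • x) ∈ a.m
           have h1 : τ.symm (c • x) = (oA τ.symm c) • τ.symm x := by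
             rw [Algebra.smul_def, Algebra.smul_def, map_mul]
             rfl
           rw [h1]; exact a.m.smul_mem _ hx }

/-- the image of a prime ideal under an automorphism of the field -/
noncomputable def gP (τ : K ≃+* K) (p : Pr K) : Pr K where
  asIdeal := p.asIdeal.comap (oA τ.symm)
  isPrime := Ideal.comap_isPrime _ _
  ne_bot := by
    intro h
    apply p.ne_bot
    rw [eq_bot_iff]
    intro x hx
    have h1 : (oA τ.symm).symm x ∈ p.asIdeal.comap (oA τ.symm) := by
      rw [Ideal.mem_comap, RingEquiv.apply_symm_apply]; exact hx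
    rw [h, Ideal.mem_bot, map_eq_zero_iff _ (RingEquiv.injective _)] at h1
    rw [h1]; exact Submodule.zero_mem _

/-- `y` is the image of `x` under the automorphism `τ` of the field -/
def Gal (τ : K ≃+* K) {n m : Id K} (x : Pt n) (y : Pt m) : Prop :=
  (∀ v : Fin 2 → K, v ∈ y.L.M ↔ (fun i => τ.symm (v i)) ∈ x.L.M) ∧
  (∀ v : Fin 2 → K, v ∈ y.V ↔ (fun i => τ.symm (v i)) ∈ x.V)

/-! ### Hecke eigenvalues -/

/-- the coefficients of `(1 - l X + w X²)⁻¹` -/
def hk (l w : ℂ) : ℕ → ℂ
  | 0 => 1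
  | 1 => l
  | (j + 2) => l * hk l w (j + 1) - w * hk l w j

/-- the function `λ` on the integral ideals: `∑ λ(m) N(m)^{-s} = ∏ (1 - λ(p) X + w(p) X²)⁻¹`,
`X = N(p)^{-s}`; `w(p)` is the value of the central character at `p`, and `0` if `p` divides the
level -/
noncomputable def hl (w lam : Pr K → ℂ) (m : Pr K →₀ ℕ) : ℂ :=
  m.prod fun p j => hk (lam p) (w p) j

end Pool.Agent.HSG.LV
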